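import Pool.Agent.R128.FracLocalDim

set_option autoImplicit false

namespace Pool.Agent.Results.MP_c6110c_co.LowerBound

open Pool.Agent.R128.FracLocalDim

/-- For every `t ≥ 2` and every `m ≥ 1` the fractional local `t`-dimension of the chain with `m`
elements is at least `log_t m`. -/
theorem result (t m : ℕ) (ht : 2 ≤ t) (hm : 1 ≤ m) : Real.logb t m ≤ fldim t (Fin m) :=
  logb_le_fldim ht hm

end Pool.Agent.Results.MP_c6110c_co.LowerBound
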